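import Pool.Agent.Hp35.Final
import Pool.Agent.Hp35.Cone

set_option autoImplicit false

namespace Pool.Agent.Results.MP_48685d_an.Unrestricted

open Pool.Agent.Hp35 MeasureTheory Filter Set Metric
open scoped ENNReal Topology

/-- Unrestricted boundary convergence in `H^p` of tube domains over regular cones, `0 < p < 1`.
For every `F ∈ H^p(T_Γ)` there is a measurable boundary function `F₀ ∈ L^p`, equal almost everywhere to every
restricted limit of `F`, with `∫ |F(x + i y) - F₀(x)|^p dx → 0` as `y → 0` through all of `Γ`; and the same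
convergence holds with any restricted limit `G` of `F` in place of `F₀`. -/
theorem result : ∀ (n : ℕ) (Γ : Set (Fin n → ℝ)), IsRegularCone Γ →
    ∀ p : ℝ, 0 < p → p < 1 → ∀ F : (Fin n → ℂ) → ℂ, MemHp p Γ F →
      (∃ F₀ : (Fin n → ℝ) → ℂ, Measurable F₀ ∧ (∫⁻ x : Fin n → ℝ, ‖F₀ x‖ₑ ^ p) < ∞ ∧
        Tendsto (fun y : Fin n → ℝ => ∫⁻ x : Fin n → ℝ, ‖F (pt x y) - F₀ x‖ₑ ^ p) (𝓝[Γ] 0) (𝓝 0) ∧
        ∀ G : (Fin n → ℝ) → ℂ, IsRestrictedLimit Γ F G → ∀ᵐ x : Fin n → ℝ, G x = F₀ x) ∧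
      (∀ G : (Fin n → ℝ) → ℂ, IsRestrictedLimit Γ F G →
        Tendsto (fun y : Fin n → ℝ => ∫⁻ x : Fin n → ℝ, ‖F (pt x y) - G x‖ₑ ^ p) (𝓝[Γ] 0) (𝓝 0)) := by
  intro n Γ hΓ p hp hp1 F hF
  classical
  -- a measurable version
  have hopenT : IsOpen (tube Γ) := isOpen_tube hΓ.isOpen
  obtain ⟨F', hF'⟩ : ∃ F' : (Fin n → ℂ) → ℂ, F' = (tube Γ).piecewise F (fun _ => 0) := ⟨_, rfl⟩
  have hFm : Measurable F' := by
    rw [hF']
    exact hF.1.continuousOn.measurable_piecewise continuousOn_const hopenT.measurableSet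
  have hmemT : ∀ (x y : Fin n → ℝ), y ∈ Γ → pt x y ∈ tube Γ := by
    intro x y hy
    simp only [tube, mem_ofPred_eq]
    have e : (fun k => (pt x y k).im) = y := by
      funext k; simp [pt]
    rw [e]
    exact hy
  have heq : ∀ (x y : Fin n → ℝ), y ∈ Γ → F' (pt x y) = F (pt x y) := by
    intro x y hy
    rw [hF']
    exact Set.piecewise_eq_of_mem _ _ _ (hmemT x y hy)
  have hFd : DifferentiableOn ℂ F' (tube Γ) := by
    refine hF.1.congr fun z hz => ?_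
    rw [hF']
    exact Set.piecewise_eq_of_mem _ _ _ hz
  have hII : ∀ y ∈ Γ, II p F' y = ∫⁻ x : Fin n → ℝ, ‖F (pt x y)‖ₑ ^ p := by
    intro y hy
    unfold II
    exact lintegral_congr fun x => by rw [heq x y hy]
  obtain ⟨A, hAdef⟩ : ∃ A : ℝ≥0∞, A = ⨆ y ∈ Γ, II p F' y := ⟨_, rfl⟩
  have hA : A ≠ ∞ := by
    have h1 : A = ⨆ y ∈ Γ, ∫⁻ x : Fin n → ℝ, ‖F (pt x y)‖ₑ ^ p := by
      rw [hAdef]
      exact iSup_congr fun y => iSup_congr fun hy => hII y hy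
    rw [h1]
    exact hF.2.ne
  have hcau : ∀ ε : ℝ≥0∞, 0 < ε → ∀ᶠ y : (Fin n → ℝ) × (Fin n → ℝ) in (𝓝[Γ] 0) ×ˢ (𝓝[Γ] 0),
      ∫⁻ x : Fin n → ℝ, ‖F' (pt x y.1) - F' (pt x y.2)‖ₑ ^ p ≤ ε := fun ε hε =>
    cauchy_L hp hΓ.isOpen hΓ.convex hΓ.smul_mem hΓ.nonempty hFm hFd hA hAdef hε
  -- a sequence inside a proper subcone
  obtain ⟨Γ₀, hΓ₀⟩ := exists_proper_subcone hΓ
  obtain ⟨y₀, hy₀⟩ := hΓ₀.1.nonempty
  obtain ⟨z, hz⟩ : ∃ z : ℕ → Fin n → ℝ, z = fun k : ℕ => (1 / ((k : ℝ) + 1)) • y₀ := ⟨_, rfl⟩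
  have hzmem : ∀ k, z k ∈ Γ₀ := by
    intro k
    rw [hz]
    exact hΓ₀.1.smul_mem y₀ hy₀ _ (by positivity)
  have hzlim : Tendsto z atTop (𝓝 0) := by
    rw [hz]
    have h1 : Tendsto (fun k : ℕ => (1 / ((k : ℝ) + 1)) • y₀) atTop (𝓝 ((0 : ℝ) • y₀)) :=
      (tendsto_one_div_add_atTop_nhds_zero_nat (𝕜 := ℝ)).smul_const y₀
    rwa [zero_smul] at h1
  have hz0 : Tendsto z atTop (𝓝[Γ₀] 0) :=
    tendsto_nhdsWithin_iff.mpr ⟨hzlim, Eventually.of_forall hzmem⟩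
  have hz1 : Tendsto z atTop (𝓝[Γ] 0) :=
    tendsto_nhdsWithin_iff.mpr ⟨hzlim, Eventually.of_forall fun k => hΓ₀.2.1 (hzmem k)⟩
  obtain ⟨φ, hφ, F₀, hF₀m, hF₀⟩ := exists_limit hp hp1.le hFm hcau hz1
  -- passing from `F'` to `F`
  have hpass : ∀ G : (Fin n → ℝ) → ℂ,
      Tendsto (fun y : Fin n → ℝ => ∫⁻ x : Fin n → ℝ, ‖F' (pt x y) - G x‖ₑ ^ p) (𝓝[Γ] 0) (𝓝 0) →
      Tendsto (fun y : Fin n → ℝ => ∫⁻ x : Fin n → ℝ, ‖F (pt x y) - G x‖ₑ ^ p) (𝓝[Γ] 0) (𝓝 0) := by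
    intro G hG
    refine hG.congr' ?_
    filter_upwards [self_mem_nhdsWithin] with y hy
    exact lintegral_congr fun x => by rw [heq x y hy]
  have hGlim : ∀ G : (Fin n → ℝ) → ℂ, IsRestrictedLimit Γ F G →
      ∀ᵐ x : Fin n → ℝ, Tendsto (fun l => F' (pt x (z l))) atTop (𝓝 (G x)) := by
    intro G hG
    filter_upwards [hG Γ₀ hΓ₀] with x hx
    have h1 := hx.comp hz0
    refine h1.congr fun l => ?_
    exact (heq x (z l) (hΓ₀.2.1 (hzmem l))).symm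
  refine ⟨⟨F₀, hF₀m, ?_, ?_, ?_⟩, ?_⟩
  · -- `F₀ ∈ L^p`
    have hfat := lintegral_liminf_le (μ := (volume : Measure (Fin n → ℝ))) (u := atTop)
      (f := fun (l : ℕ) (x : Fin n → ℝ) => ‖F' (pt x (z (φ l)))‖ₑ ^ p)
      (fun l => (hFm.comp (measurable_pt_left _)).enorm.pow_const _)
    have hpoint : ∀ᵐ x : Fin n → ℝ, ‖F₀ x‖ₑ ^ p =
        liminf (fun l : ℕ => ‖F' (pt x (z (φ l)))‖ₑ ^ p) atTop := by
      filter_upwards [hF₀] with x hx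
      symm
      apply Tendsto.liminf_eq
      exact hx.enorm.ennrpow_const p
    rw [lintegral_congr_ae hpoint]
    refine (hfat.trans ?_).trans_lt hA.lt_top
    apply liminf_le_of_frequently_le'
    refine Frequently.of_forall fun l => ?_
    rw [hAdef]
    exact le_biSup (f := fun y => II p F' y) (hΓ₀.2.1 (hzmem (φ l)))
  · exact hpass F₀ (tendsto_of_seq hFm hcau (hz1.comp hφ) hF₀)
  · intro G hG
    filter_upwards [hF₀, hGlim G hG] with x h1 h2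
    exact tendsto_nhds_unique (h2.comp hφ) h1
  · intro G hG
    exact hpass G (tendsto_of_seq hFm hcau hz1 (hGlim G hG))

end Pool.Agent.Results.MP_48685d_an.Unrestricted
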